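import Pool.Agent.H92.DG.Shearer

/-!
The Maker-Breaker game on a finite board with a family of sets such that every element of the board
lies in at most `r` of the sets: Maker's strategy with a potential in the region of positivity of the
independence polynomial of the intersection graph.
-/

set_option autoImplicit false
set_option linter.unusedSectionVars false

namespace Pool.Agent.H92.DG

open Finset
open Pool.Agent.Results.MP_0dac36_co.DegreeGame (Q R nb mem_nb Q_empty Q_insert Q_erase Q_congr
  Q_ratio R_mono Q_singleton)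

/-- `Wins X goal t M B`: in the Maker-Breaker game on the board `X`, in the position where Maker owns
`M`, Breaker owns `B`, and Maker is to move if `t` is true and Breaker is to move if `t` is false,
Maker can guarantee (whatever Breaker does) that, once every element of the board is claimed, the
set of the elements which Maker owns satisfies `goal`. -/
inductive Wins {E : Type*} [DecidableEq E] (X : Finset E) (goal : Finset E → Prop) :
    Bool → Finset E → Finset E → Prop
  /-- The game is over (all elements are claimed) and the goal is reached. -/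
  | finished (t : Bool) (M B : Finset E) : (∀ e ∈ X, e ∈ M ∪ B) → goal M → Wins X goal t M B
  /-- Maker moves: he claims one unclaimed element and reaches a position where he wins. -/
  | maker (M B : Finset E) (e : E) : e ∈ X → e ∉ M ∪ B → Wins X goal false (insert e M) B →
      Wins X goal true M B
  /-- Breaker moves: there is an unclaimed element, and whichever unclaimed element he claims, Maker
  wins in the position reached. -/
  | breaker (M B : Finset E) : (∃ e ∈ X, e ∉ M ∪ B) →
      (∀ e ∈ X, e ∉ M ∪ B → Wins X goal true M (insert e B)) → Wins X goal false M B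

lemma Wins.mono {E : Type*} [DecidableEq E] {X : Finset E} {g₁ g₂ : Finset E → Prop}
    (h : ∀ M, g₁ M → g₂ M) {t : Bool} {M B : Finset E} (hW : Wins X g₁ t M B) :
    Wins X g₂ t M B := by
  induction hW with
  | finished t M B h1 h2 => exact Wins.finished t M B h1 (h M h2)
  | maker M B e h1 h2 _ ih => exact Wins.maker M B e h1 h2 ih
  | breaker M B h1 _ ih => exact Wins.breaker M B h1 ih

section Game

variable {E : Type*} [DecidableEq E] {I : Type*} [Fintype I] [DecidableEq I]
variable (X : Finset E) (A : I → Finset E)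

/-- number of elements of `S` in `A i` -/
def cnt (S : Finset E) (i : I) : ℕ := (S ∩ A i).card

lemma cnt_insert (S : Finset E) {e : E} (he : e ∉ S) (i : I) :
    cnt A (insert e S) i = cnt A S i + if e ∈ A i then 1 else 0 := by
  unfold cnt
  split_ifs with h
  · rw [Finset.insert_inter_of_mem h, Finset.card_insert_of_notMem]
    intro h2
    exact he (Finset.mem_inter.1 h2).1
  · rw [Finset.insert_inter_of_notMem h, add_zero]

/-- The intersection graph. -/
def dep : SimpleGraph I where
  Adj i j := i ≠ j ∧ ∃ e, e ∈ A i ∧ e ∈ A j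
  symm := ⟨fun _ _ h => ⟨h.1.symm, h.2.imp (fun _ h => ⟨h.2, h.1⟩)⟩⟩
  loopless := ⟨fun _ h => h.1 rfl⟩

/-- The element `e` of the board is unclaimed. -/
def Free (M B : Finset E) (e : E) : Prop := e ∈ X ∧ e ∉ M ∧ e ∉ B

/-- Some unclaimed element lies in `A i`. -/
def Alive (M B : Finset E) (i : I) : Prop := ∃ e, Free X M B e ∧ e ∈ A i

open Classical in
/-- The weight of a set. -/
noncomputable def wt (f0 x y : I → ℝ) (M B : Finset E) (i : I) : ℝ :=
  if Alive X A M B i then f0 i * x i ^ cnt A B i * y i ^ cnt A M i else 0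

variable {f0 x y : I → ℝ}

lemma wt_nonneg (h0 : ∀ i, 0 ≤ f0 i) (hx : ∀ i, 0 ≤ x i) (hy : ∀ i, 0 ≤ y i)
    (M B : Finset E) (i : I) : 0 ≤ wt X A f0 x y M B i := by
  unfold wt
  split_ifs
  · exact mul_nonneg (mul_nonneg (h0 i) (pow_nonneg (hx i) _)) (pow_nonneg (hy i) _)
  · exact le_rfl

lemma Alive.mono {M B M' B' : Finset E} {i : I} (hM : M ⊆ M') (hB : B ⊆ B')
    (h : Alive X A M' B' i) : Alive X A M B i := by
  obtain ⟨e, ⟨h1, h2, h3⟩, h4⟩ := h
  exact ⟨e, ⟨h1, fun h => h2 (hM h), fun h => h3 (hB h)⟩, h4⟩

/-- effect of a Breaker element `e` followed by a Maker element `e'` -/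
lemma wt_le (h0 : ∀ i, 0 ≤ f0 i) (hx : ∀ i, 0 ≤ x i) (hy : ∀ i, 0 ≤ y i)
    {M B : Finset E} {e e' : E} (he : Free X M B e)
    (he' : Free X M (insert e B) e') (i : I) :
    wt X A f0 x y (insert e' M) (insert e B) i ≤
      wt X A f0 x y M B i * (if e ∈ A i then x i else 1) * (if e' ∈ A i then y i else 1) := by
  have hr : 0 ≤ wt X A f0 x y M B i * (if e ∈ A i then x i else 1) *
      (if e' ∈ A i then y i else 1) := by
    have := wt_nonneg X A h0 hx hy M B i
    apply mul_nonneg (mul_nonneg this _)
    · split_ifs
      · exact hy i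
      · exact zero_le_one
    · split_ifs
      · exact hx i
      · exact zero_le_one
  by_cases h : Alive X A (insert e' M) (insert e B) i
  · have h' : Alive X A M B i :=
      Alive.mono X A (Finset.subset_insert _ _) (Finset.subset_insert _ _) h
    unfold wt
    rw [if_pos h, if_pos h', cnt_insert A B he.2.2, cnt_insert A M he'.2.1]
    apply le_of_eq
    split_ifs <;> ring
  · unfold wt at hr ⊢
    rw [if_neg h]
    exact hr

/-- a Maker element only decreases the weights -/
lemma wt_le_maker (h0 : ∀ i, 0 ≤ f0 i) (hx : ∀ i, 0 ≤ x i) (hy : ∀ i, 0 ≤ y i)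
    (hy1 : ∀ i, y i ≤ 1) {M B : Finset E} {e : E} (he : Free X M B e) (i : I) :
    wt X A f0 x y (insert e M) B i ≤ wt X A f0 x y M B i := by
  by_cases h : Alive X A (insert e M) B i
  · have h' : Alive X A M B i := Alive.mono X A (Finset.subset_insert _ _) (Finset.Subset.refl _) h
    unfold wt
    rw [if_pos h, if_pos h', cnt_insert A M he.2.1]
    have h1 : 0 ≤ f0 i * x i ^ cnt A B i * y i ^ cnt A M i :=
      mul_nonneg (mul_nonneg (h0 i) (pow_nonneg (hx i) _)) (pow_nonneg (hy i) _)
    split_ifs
    · rw [pow_succ]
      have := mul_le_mul_of_nonneg_left (hy1 i) h1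
      linarith
    · exact le_rfl
  · have := wt_nonneg X A h0 hx hy M B i
    unfold wt at this ⊢
    rw [if_neg h]
    exact this

lemma wt_dead {M B : Finset E} {e' : E} {i : I}
    (h : ¬ Alive X A M B i) : wt X A f0 x y (insert e' M) B i = 0 := by
  unfold wt
  rw [if_neg]
  exact fun h' => h (Alive.mono X A (Finset.subset_insert _ _) (Finset.Subset.refl _) h')

/-- Maker's invariant (Breaker to move). -/
structure Inv (f0 x y : I → ℝ) (K : I → ℕ) (M B : Finset E) : Prop where
  reg : R (dep A) (wt X A f0 x y M B)
  degs : ∀ i, cnt A B i ≤ K i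
  disj : Disjoint M B

variable {X} {A}

lemma cnt_add_le {M B : Finset E} (h : Disjoint M B) (i : I) :
    cnt A M i + cnt A B i ≤ (A i).card := by
  unfold cnt
  rw [← Finset.card_union_of_disjoint]
  · apply Finset.card_le_card
    intro e he
    rcases Finset.mem_union.1 he with he | he
    · exact (Finset.mem_inter.1 he).2
    · exact (Finset.mem_inter.1 he).2
  · rw [Finset.disjoint_left] at h ⊢
    intro e he he'
    exact h (Finset.mem_inter.1 he).1 (Finset.mem_inter.1 he').1

/-- the assumptions on the parameters -/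
structure Par (A : I → Finset E) (r : ℕ) (f0 x y : I → ℝ) (K : I → ℕ) : Prop where
  h0 : ∀ i, 0 ≤ f0 i
  hx : ∀ i, 1 ≤ x i
  hy : ∀ i, 0 ≤ y i
  hy1 : ∀ i, y i ≤ 1
  hxy : ∀ i, x i * (r - 1 + y i) ≤ r
  hK : ∀ i, 1 ≤ f0 i * x i ^ K i * y i ^ ((A i).card - K i)
  hr : ∀ e, (univ.filter (fun i => e ∈ A i)).card ≤ r

variable {r : ℕ} {K : I → ℕ}

lemma cnt_lt (hP : Par A r f0 x y K) {M B : Finset E}
    (hI : Inv X A f0 x y K M B) {i : I} (hv : Alive X A M B i) : cnt A B i < K i := by
  rcases (hI.degs i).lt_or_eq with h | h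
  · exact h
  · exfalso
    have h1 := hI.reg {i}
    rw [Q_singleton] at h1
    have h2 := cnt_add_le (A := A) hI.disj i
    have h3 : y i ^ ((A i).card - K i) ≤ y i ^ cnt A M i :=
      pow_le_pow_of_le_one (hP.hy i) (hP.hy1 i) (by omega)
    have h4 : wt X A f0 x y M B i = f0 i * x i ^ K i * y i ^ cnt A M i := by
      unfold wt
      rw [if_pos hv, h]
    have hx0 : 0 ≤ x i := zero_le_one.trans (hP.hx i)
    have h5 := mul_le_mul_of_nonneg_left h3 (mul_nonneg (hP.h0 i) (pow_nonneg hx0 (K i)))
    rw [h4] at h1
    have := hP.hK i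
    linarith

lemma cnts_insert (hP : Par A r f0 x y K) {M B : Finset E}
    (hI : Inv X A f0 x y K M B) {e : E} (he : Free X M B e) (i : I) :
    cnt A (insert e B) i ≤ K i := by
  rw [cnt_insert A B he.2.2]
  split_ifs with h
  · have := cnt_lt hP hI ⟨e, he, h⟩
    omega
  · have := hI.degs i
    omega

open Classical in
/-- Maker's reply to the element `e` of Breaker. -/
lemma reply (hP : Par A r f0 x y K) {M B : Finset E}
    (hI : Inv X A f0 x y K M B) {e : E} (he : Free X M B e)
    (hex : ∃ e', Free X M (insert e B) e') :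
    ∃ e', Free X M (insert e B) e' ∧ Inv X A f0 x y K (insert e' M) (insert e B) := by
  have hx0 : ∀ i, 0 ≤ x i := fun i => zero_le_one.trans (hP.hx i)
  have hfin : ∀ e', Free X M (insert e B) e' →
      R (dep A) (wt X A f0 x y (insert e' M) (insert e B)) →
      ∃ e', Free X M (insert e B) e' ∧ Inv X A f0 x y K (insert e' M) (insert e B) := by
    intro e' he' hR
    refine ⟨e', he', hR, cnts_insert hP hI he, ?_⟩
    rw [Finset.disjoint_insert_left]
    refine ⟨he'.2.2, ?_⟩
    rw [Finset.disjoint_insert_right]
    exact ⟨he.2.1, hI.disj⟩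
  have hw := wt_nonneg X A hP.h0 hx0 hP.hy M B
  set T : Finset I := univ.filter (fun i => e ∈ A i ∧ Alive X A M (insert e B) i) with hT
  have hmemT : ∀ i, i ∈ T ↔ e ∈ A i ∧ Alive X A M (insert e B) i := by
    intro i
    rw [hT, Finset.mem_filter]
    simp
  rcases T.eq_empty_or_nonempty with hTe | hTne
  · obtain ⟨e0, he0⟩ := hex
    apply hfin e0 he0
    apply R_mono (dep A) hI.reg
    intro i
    by_cases hi : e ∈ A i
    · have hAl : ¬ Alive X A M (insert e B) i := by
        intro hAl
        have : i ∈ T := (hmemT i).2 ⟨hi, hAl⟩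
        rw [hTe] at this
        exact absurd this (Finset.notMem_empty i)
      rw [wt_dead X A hAl]
      exact hw i
    · have h1 := wt_le X A hP.h0 hx0 hP.hy he he0 i
      rw [if_neg hi] at h1
      have h2 : (if e0 ∈ A i then y i else 1) ≤ 1 := by
        split_ifs
        · exact hP.hy1 i
        · exact le_rfl
      have h3 := mul_le_mul_of_nonneg_left h2 (hw i)
      linarith
  · set w := wt X A f0 x y M B with hwdef
    have hcl : ∀ a ∈ T, ∀ b ∈ T, a ≠ b → (dep A).Adj a b := by
      intro a ha b hb hab
      exact ⟨hab, e, ((hmemT a).1 ha).1, ((hmemT b).1 hb).1⟩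
    have hTr : T.card ≤ r := by
      refine (Finset.card_le_card ?_).trans (hP.hr e)
      intro i hi
      rw [Finset.mem_filter]
      exact ⟨Finset.mem_univ _, ((hmemT i).1 hi).1⟩
    obtain ⟨j, hj, hRj⟩ := R_avg (dep A) (f := w) hw hI.reg hTne hcl
      (fun j v => if v ∈ T then w v * x v * (if v = j then y v else 1) else w v)
      (by
        intro j v
        show 0 ≤ (if v ∈ T then w v * x v * (if v = j then y v else 1) else w v)
        split_ifs
        · exact mul_nonneg (mul_nonneg (hw v) (hx0 v)) (hP.hy v)
        · exact mul_nonneg (mul_nonneg (hw v) (hx0 v)) zero_le_one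
        · exact hw v)
      (by
        intro j v hv
        show (if v ∈ T then w v * x v * (if v = j then y v else 1) else w v) = w v
        rw [if_neg hv])
      (by
        intro v hv
        show ∑ j ∈ T, (if v ∈ T then w v * x v * (if v = j then y v else 1) else w v) ≤ _
        have e1 : ∑ j ∈ T, (if v ∈ T then w v * x v * (if v = j then y v else 1) else w v) =
            w v * x v * ((T.card : ℝ) - 1 + y v) := by
          have e2 : ∀ j ∈ T, (if v ∈ T then w v * x v * (if v = j then y v else 1) else w v) =
              w v * x v * (1 + if v = j then (y v - 1) else 0) := by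
            intro j _
            rw [if_pos hv]
            split_ifs <;> ring
          rw [Finset.sum_congr rfl e2, ← Finset.mul_sum, Finset.sum_add_distrib,
            Finset.sum_ite_eq, if_pos hv, Finset.sum_const, nsmul_eq_mul, mul_one]
          ring
        rw [e1]
        have h1 : x v * ((T.card : ℝ) - 1 + y v) ≤ T.card := by
          have h2 := hP.hxy v
          have h3 : (T.card : ℝ) ≤ r := by exact_mod_cast hTr
          have h4 := hP.hx v
          nlinarith
        have h5 := mul_le_mul_of_nonneg_left h1 (hw v)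
        linarith)
    obtain ⟨e1, he1, hj1⟩ := ((hmemT j).1 hj).2
    apply hfin e1 he1
    apply R_mono (dep A) hRj
    intro v
    show _ ≤ (if v ∈ T then w v * x v * (if v = j then y v else 1) else w v)
    have h1 := wt_le X A hP.h0 hx0 hP.hy he he1 v
    have h2 : (if e1 ∈ A v then y v else 1) ≤ (if v = j then y v else 1) := by
      by_cases hv : v = j
      · rw [if_pos hv, if_pos (hv ▸ hj1)]
      · rw [if_neg hv]
        split_ifs
        · exact hP.hy1 v
        · exact le_rfl
    by_cases hv : v ∈ T
    · rw [if_pos hv]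
      rw [if_pos ((hmemT v).1 hv).1] at h1
      exact h1.trans (mul_le_mul_of_nonneg_left h2 (mul_nonneg (hw v) (hx0 v)))
    · rw [if_neg hv]
      by_cases hev : e ∈ A v
      · have hAl : ¬ Alive X A M (insert e B) v := fun h => hv ((hmemT v).2 ⟨hev, h⟩)
        rw [wt_dead X A hAl]
        exact hw v
      · rw [if_neg hev] at h1
        have h3 : (if e1 ∈ A v then y v else 1) ≤ 1 := by
          split_ifs
          · exact hP.hy1 v
          · exact le_rfl
        have h4 := mul_le_mul_of_nonneg_left h3 (hw v)
        linarith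

/-- when everything is claimed the bound holds -/
lemma final_bound (hAX : ∀ i, A i ⊆ X) {M B : Finset E}
    (hall : ∀ e ∈ X, e ∈ M ∪ B) (i : I) (hB : cnt A B i ≤ K i) :
    (A i).card - K i ≤ (M ∩ A i).card := by
  have h1 : A i ⊆ (M ∩ A i) ∪ (B ∩ A i) := by
    intro e he
    rw [Finset.mem_union, Finset.mem_inter, Finset.mem_inter]
    rcases Finset.mem_union.1 (hall e (hAX i he)) with h | h
    · exact Or.inl ⟨h, he⟩
    · exact Or.inr ⟨h, he⟩
  have h2 := (Finset.card_le_card h1).trans (Finset.card_union_le _ _)
  unfold cnt at hB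
  omega

lemma wins (hP : Par A r f0 x y K) (hAX : ∀ i, A i ⊆ X) (N : ℕ) :
    ∀ M B : Finset E, (X \ (M ∪ B)).card ≤ N → Inv X A f0 x y K M B →
      Wins X (fun M => ∀ i, (A i).card - K i ≤ (M ∩ A i).card) false M B := by
  have hfin : ∀ (t : Bool) (M B : Finset E), (∀ e ∈ X, e ∈ M ∪ B) →
      (∀ i, cnt A B i ≤ K i) →
      Wins X (fun M => ∀ i, (A i).card - K i ≤ (M ∩ A i).card) t M B := by
    intro t M B hall hB
    apply Wins.finished t M B hall
    intro i
    exact final_bound hAX hall i (hB i)
  induction N with
  | zero =>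
    intro M B hN hI
    have h1 := Finset.card_eq_zero.1 (Nat.le_zero.1 hN)
    apply hfin false M B _ hI.degs
    intro e he
    by_contra hc
    have : e ∈ X \ (M ∪ B) := Finset.mem_sdiff.2 ⟨he, hc⟩
    rw [h1] at this
    exact absurd this (Finset.notMem_empty e)
  | succ N ih =>
    intro M B hN hI
    by_cases hex : ∃ e ∈ X, e ∉ M ∪ B
    · apply Wins.breaker M B hex
      intro e he heMB
      rw [Finset.mem_union, not_or] at heMB
      have hfree : Free X M B e := ⟨he, heMB.1, heMB.2⟩
      by_cases hex' : ∃ e', Free X M (insert e B) e'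
      · obtain ⟨e', he', hI'⟩ := reply hP hI hfree hex'
        apply Wins.maker M (insert e B) e' he'.1
        · rw [Finset.mem_union, not_or]
          exact ⟨he'.2.1, he'.2.2⟩
        · apply ih _ _ _ hI'
          have hlt : (X \ (insert e' M ∪ insert e B)) ⊂ (X \ (M ∪ B)) := by
            rw [Finset.ssubset_iff_of_subset]
            · refine ⟨e, ?_, ?_⟩
              · rw [Finset.mem_sdiff, Finset.mem_union, not_or]
                exact ⟨he, heMB.1, heMB.2⟩
              · rw [Finset.mem_sdiff, not_and, not_not]
                intro _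
                exact Finset.mem_union_right _ (Finset.mem_insert_self _ _)
            · apply Finset.sdiff_subset_sdiff le_rfl
              exact Finset.union_subset_union (Finset.subset_insert _ _) (Finset.subset_insert _ _)
          have := Finset.card_lt_card hlt
          omega
      · apply hfin true M (insert e B) _ (cnts_insert hP hI hfree)
        intro e1 he1
        by_contra hc
        rw [Finset.mem_union, not_or] at hc
        exact hex' ⟨e1, he1, hc.1, hc.2⟩
    · push Not at hex
      exact hfin false M B hex hI.degs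

/-- Maker's strategy, for a family with parameters that satisfy the local-lemma condition. -/
theorem wins_start (hP : Par A r f0 x y K) (hAX : ∀ i, A i ⊆ X) {z : I → ℝ} (hz0 : ∀ i, 0 ≤ z i)
    (hz1 : ∀ i, z i < 1) (hz : ∀ i, f0 i ≤ z i * ∏ u ∈ nb (dep A) i, (1 - z u)) (t : Bool) :
    Wins X (fun M => ∀ i, (A i).card - K i ≤ (M ∩ A i).card) t ∅ ∅ := by
  have hx0 : ∀ i, 0 ≤ x i := fun i => zero_le_one.trans (hP.hx i)
  have hR0 : R (dep A) (wt X A f0 x y ∅ ∅) := by
    apply R_mono (dep A) (R_lll (dep A) hz0 hz1 hz)
    intro i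
    unfold wt
    split_ifs
    · simp [cnt]
    · exact hP.h0 i
  have hcnt0 : ∀ i, cnt A ∅ i = 0 := by
    intro i
    simp [cnt]
  cases t with
  | false =>
    apply wins hP hAX _ _ _ le_rfl
    refine ⟨hR0, ?_, Finset.disjoint_empty_left _⟩
    intro i
    rw [hcnt0]
    exact Nat.zero_le _
  | true =>
    by_cases hex : ∃ e ∈ X, e ∉ (∅ ∪ ∅ : Finset E)
    · obtain ⟨e, he, heMB⟩ := hex
      apply Wins.maker ∅ ∅ e he heMB
      have hfree : Free X ∅ ∅ e := ⟨he, by simp, by simp⟩
      apply wins hP hAX _ _ _ le_rfl
      refine ⟨?_, ?_, Finset.disjoint_empty_right _⟩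
      · apply R_mono (dep A) hR0
        intro i
        exact wt_le_maker X A hP.h0 hx0 hP.hy hP.hy1 hfree i
      · intro i
        rw [hcnt0]
        exact Nat.zero_le _
    · push Not at hex
      apply Wins.finished true ∅ ∅ hex
      intro i
      exact final_bound (K := K) hAX hex i (by rw [hcnt0]; exact Nat.zero_le _)

/-- the number of neighbours in the intersection graph -/
lemma card_nb (hr : ∀ e, (univ.filter (fun i => e ∈ A i)).card ≤ r) (i : I) :
    (nb (dep A) i).card ≤ (r - 1) * (A i).card := by
  classical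
  have h1 : nb (dep A) i ⊆ (A i).biUnion (fun e => (univ.filter (fun j => e ∈ A j)).erase i) := by
    intro j hj
    rw [mem_nb] at hj
    obtain ⟨hij, e, he, he'⟩ := hj
    rw [Finset.mem_biUnion]
    refine ⟨e, he, ?_⟩
    rw [Finset.mem_erase, Finset.mem_filter]
    exact ⟨hij.symm, Finset.mem_univ _, he'⟩
  refine (Finset.card_le_card h1).trans ?_
  rw [mul_comm]
  apply Finset.card_biUnion_le_card_mul
  intro e he
  have hi : i ∈ univ.filter (fun j => e ∈ A j) := by
    rw [Finset.mem_filter]
    exact ⟨Finset.mem_univ _, he⟩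
  rw [Finset.card_erase_of_mem hi]
  have := hr e
  omega

end Game

end Pool.Agent.H92.DG
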