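import Pool.Agent.H92.DG.Game

/-!
The choice of the parameters: Maker gets `D / (r + 1)` elements, up to an error term, of every set
with `D` elements, when all the sets are large and every element lies in at most `r` of them.
-/

set_option autoImplicit false

namespace Pool.Agent.H92.DG

open Finset
open Pool.Agent.Results.MP_0dac36_co.DegreeGame (Q R nb mem_nb)

/-- the constant of the error term -/
noncomputable def kap (r : ℕ) : ℝ := (2 * (r : ℝ) ^ 2 + r + 1) / (r + 1) ^ 2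

lemma par (r : ℕ) (hr : 1 ≤ r) (D : ℕ) {s : ℝ} (hs0 : 0 ≤ s) (hs : r * s ≤ 1 / 2) :
    ∃ (x y : ℝ) (K : ℕ), 1 ≤ x ∧ 0 ≤ y ∧ y ≤ 1 ∧ x * (r - 1 + y) ≤ r ∧
      1 ≤ Real.exp (-(s ^ 2 * D)) * x ^ K * y ^ (D - K) ∧
      (D : ℝ) / (r + 1) - kap r * (s * D) - 1 ≤ ((D - K : ℕ) : ℝ) := by
  have hr1 : (1 : ℝ) ≤ r := by exact_mod_cast hr
  have hr0 : (0 : ℝ) < (r : ℝ) + 1 := by linarith
  have hD0 : (0 : ℝ) ≤ D := Nat.cast_nonneg D
  have hs1 : s ≤ 1 / 2 := by nlinarith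
  have h1s : 0 < 1 - s := by linarith
  obtain ⟨u, hu⟩ : ∃ u : ℝ, u = r * s := ⟨_, rfl⟩
  have hu0 : 0 ≤ u := by rw [hu]; positivity
  have hu1 : u ≤ 1 / 2 := by rw [hu]; exact hs
  obtain ⟨x, hx⟩ : ∃ x : ℝ, x = 1 / (1 - s) := ⟨_, rfl⟩
  obtain ⟨y, hy⟩ : ∃ y : ℝ, y = 1 - u := ⟨_, rfl⟩
  have hx1 : 1 ≤ x := by rw [hx, le_div_iff₀ h1s]; linarith
  have hx0 : 0 < x := by linarith
  have hy0 : 1 / 2 ≤ y := by linarith
  have hy0' : 0 < y := by linarith
  have hy1 : y ≤ 1 := by linarith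
  have hxy : x * (r - 1 + y) = r := by
    rw [hx, hy, hu]
    field_simp
    ring
  have hA : s ≤ Real.log x := by
    have h := Real.log_le_sub_one_of_pos h1s
    have h2 : Real.log x = - Real.log (1 - s) := by rw [hx, one_div, Real.log_inv]
    linarith
  have hB : -(u + 2 * u ^ 2) ≤ Real.log y := by
    have h := Real.one_sub_inv_le_log_of_pos hy0'
    have h3 : y⁻¹ ≤ 1 + (u + 2 * u ^ 2) := by
      rw [inv_le_iff_one_le_mul₀ hy0', hy]
      nlinarith [mul_nonneg hu0 hu0, mul_nonneg (mul_nonneg hu0 hu0) (sub_nonneg.2 hu1)]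
    linarith
  obtain ⟨κ, hκ⟩ : ∃ κ : ℝ, κ = kap r := ⟨_, rfl⟩
  have hκ1 : κ * ((r : ℝ) + 1) ^ 2 = 2 * (r : ℝ) ^ 2 + r + 1 := by
    rw [hκ, kap, div_mul_cancel₀ _ (by positivity)]
  have hκ0 : 0 ≤ κ := by rw [hκ, kap]; positivity
  obtain ⟨K, hK⟩ : ∃ K : ℕ, K = ⌈r / (r + 1) * (D : ℝ) + κ * (s * D)⌉₊ := ⟨_, rfl⟩
  have hK1 : r / (r + 1) * (D : ℝ) + κ * (s * D) ≤ K := by rw [hK]; exact Nat.le_ceil _
  have hK2 : (K : ℝ) < r / (r + 1) * (D : ℝ) + κ * (s * D) + 1 := by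
    rw [hK]; exact Nat.ceil_lt_add_one (by positivity)
  have hsp : (r : ℝ) / (r + 1) = 1 - 1 / (r + 1) := by
    field_simp
    ring
  have hKn : K ≤ D := by
    rw [hK, Nat.ceil_le]
    have h1 : κ * s ≤ 1 / (r + 1) := by
      rw [le_div_iff₀ hr0]
      have h2 : κ * s * (r + 1) * (r + 1) ≤ 1 * (r + 1) := by
        have e : κ * s * (r + 1) * (r + 1) = (κ * ((r : ℝ) + 1) ^ 2) * s := by ring
        rw [e, hκ1]
        nlinarith [mul_nonneg (sub_nonneg.2 hr1) hs0, mul_nonneg hr0.le (sub_nonneg.2 hs)]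
      exact le_of_mul_le_mul_right h2 hr0
    have h2 := mul_le_mul_of_nonneg_right h1 hD0
    rw [hsp]
    nlinarith
  have hcast : ((D - K : ℕ) : ℝ) = D - K := by rw [Nat.cast_sub hKn]
  have hKnR : (K : ℝ) ≤ D := by exact_mod_cast hKn
  refine ⟨x, y, K, hx1, hy0'.le, hy1, hxy.le, ?_, ?_⟩
  · have hpos : 0 < Real.exp (-(s ^ 2 * D)) * x ^ K * y ^ (D - K) := by positivity
    rw [← Real.log_nonneg_iff hpos, Real.log_mul (by positivity) (by positivity),
      Real.log_mul (by positivity) (by positivity), Real.log_pow, Real.log_pow, Real.log_exp, hcast]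
    have e1 : (K : ℝ) * s ≤ K * Real.log x := mul_le_mul_of_nonneg_left hA (Nat.cast_nonneg K)
    have e2 : ((D : ℝ) - K) * (-(u + 2 * u ^ 2)) ≤ (D - K) * Real.log y :=
      mul_le_mul_of_nonneg_left hB (by linarith)
    have e3 : 0 ≤ s + u + 2 * u ^ 2 := by positivity
    have e4 : (r / (r + 1) * (D : ℝ) + κ * (s * D)) * (s + u + 2 * u ^ 2) ≤
        K * (s + u + 2 * u ^ 2) := mul_le_mul_of_nonneg_right hK1 e3
    have e5 : (r / (r + 1) * (D : ℝ) + κ * (s * D)) * (s + u + 2 * u ^ 2) =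
        D * (u + 2 * u ^ 2) + s ^ 2 * D + 2 * κ * u ^ 2 * (s * D) := by
      rw [hκ, kap, hu]
      field_simp
      ring
    have e6 : 0 ≤ 2 * κ * u ^ 2 * (s * D) := by positivity
    nlinarith
  · rw [hcast, ← hκ]
    have e7 : (D : ℝ) / (r + 1) = D - r / (r + 1) * D := by
      rw [hsp]
      ring
    rw [e7]
    linarith

lemma log_two_l {d : ℕ} (hd1 : 1 ≤ d) {l : ℝ} (hl : 1 ≤ l) {r : ℕ} (hr : 1 ≤ r)
    (hd : 4 * (r : ℝ) ^ 2 * (Real.log (2 * l * d) + 2 * (r - 1) / (3 * l)) ≤ d) :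
    (11 / 4 : ℝ) ≤ d ∧ 1 ≤ Real.log (2 * l * d) := by
  have hr1 : (1 : ℝ) ≤ r := by exact_mod_cast hr
  have hd1' : (1 : ℝ) ≤ d := by exact_mod_cast hd1
  have h1 : Real.log 2 ≤ Real.log (2 * l * d) :=
    Real.log_le_log (by norm_num) (by nlinarith)
  have h2 := Real.log_two_gt_d9
  have h3 : 0 ≤ 2 * ((r : ℝ) - 1) / (3 * l) := by
    apply div_nonneg
    · linarith
    · linarith
  have h4 : (1 : ℝ) ≤ (r : ℝ) ^ 2 := by nlinarith
  have h5 : (11 / 4 : ℝ) ≤ d := by nlinarith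
  refine ⟨h5, ?_⟩
  rw [Real.le_log_iff_exp_le (by positivity)]
  have := Real.exp_one_lt_d9
  nlinarith

lemma ratio_le {d : ℕ} (hd1 : 1 ≤ d) {l : ℝ} (hl : 1 ≤ l) {r : ℕ} (hr : 1 ≤ r)
    (hd : 4 * (r : ℝ) ^ 2 * (Real.log (2 * l * d) + 2 * (r - 1) / (3 * l)) ≤ d) {D : ℕ}
    (hD : d ≤ D) :
    (Real.log (2 * l * D) + 2 * (r - 1) * D / (3 * l * d)) / D ≤
      (Real.log (2 * l * d) + 2 * (r - 1) / (3 * l)) / d := by
  obtain ⟨h1, h2⟩ := log_two_l hd1 hl hr hd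
  have hr1 : (1 : ℝ) ≤ r := by exact_mod_cast hr
  have hd0 : (0 : ℝ) < d := by linarith
  have hDd : (d : ℝ) ≤ D := by exact_mod_cast hD
  have hD0 : (0 : ℝ) < D := by linarith
  have hl0 : 0 < l := by linarith
  have h3 : Real.log (2 * l * D) * d ≤ Real.log (2 * l * d) * D := by
    have e : 2 * l * (D : ℝ) = (2 * l * d) * (D / d) := by field_simp
    have h4 : Real.log (2 * l * D) = Real.log (2 * l * d) + Real.log (D / d) := by
      rw [e, Real.log_mul (by positivity) (by positivity)]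
    have h5 : Real.log (D / d : ℝ) ≤ D / d - 1 := Real.log_le_sub_one_of_pos (by positivity)
    have h6 : (D / d - 1 : ℝ) * d = D - d := by field_simp
    have h7 := mul_le_mul_of_nonneg_right h5 hd0.le
    rw [h6] at h7
    rw [h4, add_mul]
    nlinarith [mul_nonneg (sub_nonneg.2 h2) (sub_nonneg.2 hDd)]
  rw [div_le_div_iff₀ hD0 hd0, add_mul, add_mul]
  have e : 2 * ((r : ℝ) - 1) * D / (3 * l * d) * d = 2 * (r - 1) / (3 * l) * D := by
    field_simp
  rw [e]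
  linarith

/-- the size of the parameter `s` -/
lemma s_small {d : ℕ} (hd1 : 1 ≤ d) {l : ℝ} (hl : 1 ≤ l) {r : ℕ} (hr : 1 ≤ r)
    (hd : 4 * (r : ℝ) ^ 2 * (Real.log (2 * l * d) + 2 * (r - 1) / (3 * l)) ≤ d) {D : ℕ}
    (hD : d ≤ D) :
    (r : ℝ) * √((Real.log (2 * l * D) + 2 * (r - 1) * D / (3 * l * d)) / D) ≤ 1 / 2 := by
  obtain ⟨h1, h2⟩ := log_two_l hd1 hl hr hd
  have hr1 : (1 : ℝ) ≤ r := by exact_mod_cast hr
  have hd0 : (0 : ℝ) < d := by linarith
  have h4 := ratio_le hd1 hl hr hd hD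
  have h5 : (Real.log (2 * l * d) + 2 * (r - 1) / (3 * l)) / d ≤ 1 / (2 * r) ^ 2 := by
    rw [div_le_div_iff₀ hd0 (by positivity)]
    nlinarith
  have h6 : √((Real.log (2 * l * D) + 2 * (r - 1) * D / (3 * l * d)) / D) ≤ 1 / (2 * r) := by
    rw [show (1 : ℝ) / (2 * r) = √(1 / (2 * r) ^ 2) by
      rw [one_div, one_div, Real.sqrt_inv, Real.sqrt_sq (by positivity)]]
    exact Real.sqrt_le_sqrt (h4.trans h5)
  calc (r : ℝ) * √((Real.log (2 * l * D) + 2 * (r - 1) * D / (3 * l * d)) / D)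
      ≤ r * (1 / (2 * r)) := mul_le_mul_of_nonneg_left h6 (by linarith)
    _ = 1 / 2 := by field_simp

/-- the guaranteed number of elements of a set with `D` elements -/
noncomputable def share (r d : ℕ) (l : ℝ) (D : ℕ) : ℝ :=
  (D : ℝ) / (r + 1) - kap r * √(D * Real.log (2 * l * D) + 2 * (r - 1) * D ^ 2 / (3 * l * d)) - 1

lemma exp_bound {v : ℝ} (hv0 : 0 ≤ v) (hv : v ≤ 1 / 4) : Real.exp (-(4 / 3 * v)) ≤ 1 - v := by
  have h1 := Real.add_one_le_exp (4 / 3 * v)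
  have h2 : 0 < 4 / 3 * v + 1 := by linarith
  rw [Real.exp_neg]
  calc (Real.exp (4 / 3 * v))⁻¹ ≤ (4 / 3 * v + 1)⁻¹ := inv_anti₀ h2 h1
    _ ≤ 1 - v := by
      rw [inv_le_iff_one_le_mul₀ h2]
      nlinarith

/-- **Family theorem**, all sets large. -/
theorem family_large {E : Type*} [DecidableEq E] {I : Type*} [Fintype I] [DecidableEq I]
    {d : ℕ} (hd1 : 1 ≤ d) {l : ℝ} (hl : 1 ≤ l) {r : ℕ} (hr : 1 ≤ r)
    (hd : 4 * (r : ℝ) ^ 2 * (Real.log (2 * l * d) + 2 * (r - 1) / (3 * l)) ≤ d)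
    (X : Finset E) (A : I → Finset E) (hAX : ∀ i, A i ⊆ X)
    (hA : ∀ e, (univ.filter (fun i => e ∈ A i)).card ≤ r) (hlarge : ∀ i, d ≤ (A i).card)
    (t : Bool) :
    Wins X (fun M => ∀ i, share r d l (A i).card ≤ ((M ∩ A i).card : ℝ)) t ∅ ∅ := by
  obtain ⟨h1, h2⟩ := log_two_l hd1 hl hr hd
  have hr1 : (1 : ℝ) ≤ r := by exact_mod_cast hr
  have hd0 : (0 : ℝ) < d := by linarith
  have hl0 : 0 < l := by linarith
  have hDd : ∀ i, (d : ℝ) ≤ (A i).card := fun i => by exact_mod_cast hlarge i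
  have hD0 : ∀ i, (0 : ℝ) < (A i).card := fun i => hd0.trans_le (hDd i)
  obtain ⟨s, hs⟩ : ∃ s : I → ℝ, s = fun i =>
    √((Real.log (2 * l * (A i).card) + 2 * (r - 1) * (A i).card / (3 * l * d)) / (A i).card) :=
    ⟨_, rfl⟩
  have hs0 : ∀ i, 0 ≤ s i := fun i => by rw [hs]; exact Real.sqrt_nonneg _
  have hlog0 : ∀ i, 0 ≤ Real.log (2 * l * (A i).card) := fun i => by
    apply Real.log_nonneg
    nlinarith [hDd i]
  have hnn : ∀ i, 0 ≤ Real.log (2 * l * (A i).card) + 2 * (r - 1) * (A i).card / (3 * l * d) := by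
    intro i
    apply add_nonneg (hlog0 i)
    apply div_nonneg _ (by positivity)
    exact mul_nonneg (by linarith) (hD0 i).le
  have hs2 : ∀ i, s i ^ 2 * (A i).card =
      Real.log (2 * l * (A i).card) + 2 * (r - 1) * (A i).card / (3 * l * d) := by
    intro i
    rw [hs]
    show √((Real.log (2 * l * (A i).card) + 2 * (r - 1) * (A i).card / (3 * l * d)) /
      (A i).card) ^ 2 * (A i).card = _
    rw [Real.sq_sqrt (div_nonneg (hnn i) (hD0 i).le), div_mul_cancel₀ _ (hD0 i).ne']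
  have hsD : ∀ i, s i * (A i).card = √((A i).card * Real.log (2 * l * (A i).card) +
      2 * (r - 1) * (A i).card ^ 2 / (3 * l * d)) := by
    intro i
    have hDi := hD0 i
    have e : ((A i).card : ℝ) * Real.log (2 * l * (A i).card) +
        2 * (r - 1) * (A i).card ^ 2 / (3 * l * d) =
        ((Real.log (2 * l * (A i).card) + 2 * (r - 1) * (A i).card / (3 * l * d)) / (A i).card) *
          ((A i).card : ℝ) ^ 2 := by
      field_simp
    rw [e, Real.sqrt_mul (div_nonneg (hnn i) (hD0 i).le), Real.sqrt_sq (hD0 i).le, hs]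
  choose x y K hx hy hy1 hxy hK hfin using fun i =>
    par r hr (A i).card (hs0 i) (by rw [hs]; exact s_small hd1 hl hr hd (hlarge i))
  have hP : Par A r (fun i => Real.exp (-(s i ^ 2 * (A i).card))) x y K :=
    ⟨fun i => (Real.exp_pos _).le, hx, hy, hy1, hxy, hK, hA⟩
  have hz : ∀ i, (1 : ℝ) / (2 * l * (A i).card) ≤ 1 / (2 * l * d) := fun i =>
    one_div_le_one_div_of_le (by positivity) (mul_le_mul_of_nonneg_left (hDd i) (by positivity))
  have hv4 : (1 : ℝ) / (2 * l * d) ≤ 1 / 4 := by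
    apply one_div_le_one_div_of_le (by norm_num)
    nlinarith
  have hwin := wins_start hP hAX (z := fun i => 1 / (2 * l * (A i).card))
    (fun i => by have := hD0 i; positivity)
    (fun i => ((hz i).trans hv4).trans_lt (by norm_num))
    (by
      intro i
      show Real.exp (-(s i ^ 2 * (A i).card)) ≤
        1 / (2 * l * (A i).card) * ∏ u ∈ nb (dep A) i, (1 - 1 / (2 * l * ((A u).card : ℝ)))
      have e1 : Real.exp (-(s i ^ 2 * (A i).card)) = 1 / (2 * l * (A i).card) *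
          Real.exp (-(2 * (r - 1) * (A i).card / (3 * l * d))) := by
        rw [hs2 i, neg_add, Real.exp_add, Real.exp_neg,
          Real.exp_log (by have := hD0 i; positivity), one_div]
      rw [e1]
      apply mul_le_mul_of_nonneg_left _ (by have := hD0 i; positivity)
      have e2 : ∀ u ∈ nb (dep A) i, Real.exp (-(2 / (3 * l * d))) ≤
          1 - 1 / (2 * l * ((A u).card : ℝ)) := by
        intro u _
        have h3 := exp_bound (v := 1 / (2 * l * d)) (by positivity) hv4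
        have e3 : (4 / 3 * (1 / (2 * l * d)) : ℝ) = 2 / (3 * l * d) := by
          field_simp
          ring
        rw [e3] at h3
        linarith [hz u]
      have e4 : Real.exp (-(2 / (3 * l * d))) ^ (nb (dep A) i).card ≤
          ∏ u ∈ nb (dep A) i, (1 - 1 / (2 * l * ((A u).card : ℝ))) := by
        rw [← Finset.prod_const]
        exact Finset.prod_le_prod (fun _ _ => (Real.exp_pos _).le) e2
      refine le_trans ?_ e4
      rw [← Real.exp_nat_mul, Real.exp_le_exp]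
      have h5 : ((nb (dep A) i).card : ℝ) ≤ (r - 1) * (A i).card := by
        have h6 := card_nb hA i
        have h7 : ((nb (dep A) i).card : ℝ) ≤ (((r - 1) * (A i).card : ℕ) : ℝ) := by
          exact_mod_cast h6
        rw [Nat.cast_mul, Nat.cast_sub hr, Nat.cast_one] at h7
        exact h7
      have h6 : (0 : ℝ) ≤ 2 / (3 * l * d) := by positivity
      have h7 := mul_le_mul_of_nonneg_right h5 h6
      have e5 : ((r : ℝ) - 1) * (A i).card * (2 / (3 * l * d)) =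
          2 * (r - 1) * (A i).card / (3 * l * d) := by ring
      rw [e5] at h7
      linarith) t
  apply hwin.mono
  intro M hM i
  have h3 := hfin i
  have h4 : (((A i).card - K i : ℕ) : ℝ) ≤ ((M ∩ A i).card : ℝ) := by exact_mod_cast hM i
  rw [hsD i] at h3
  unfold share
  linarith

/-- **Family theorem**: small sets are allowed, nothing is claimed for them. -/
theorem family {E : Type*} [DecidableEq E] {I : Type*} [Fintype I] [DecidableEq I]
    {d : ℕ} (hd1 : 1 ≤ d) {l : ℝ} (hl : 1 ≤ l) {r : ℕ} (hr : 1 ≤ r)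
    (hd : 4 * (r : ℝ) ^ 2 * (Real.log (2 * l * d) + 2 * (r - 1) / (3 * l)) ≤ d)
    (X : Finset E) (A : I → Finset E) (hAX : ∀ i, A i ⊆ X)
    (hA : ∀ e ∈ X, (univ.filter (fun i => d ≤ (A i).card ∧ e ∈ A i)).card ≤ r) (t : Bool) :
    Wins X (fun M => ∀ i, d ≤ (A i).card → share r d l (A i).card ≤ ((M ∩ A i).card : ℝ))
      t ∅ ∅ := by
  have h := family_large hd1 hl hr hd X (fun j : {i : I // d ≤ (A i).card} => A j.1)
    (fun j => hAX j.1)
    (by
      intro e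
      by_cases he : e ∈ X
      · refine le_trans ?_ (hA e he)
        apply Finset.card_le_card_of_injOn (fun j => j.1)
        · intro j hj
          have hj2 := (Finset.mem_filter.1 hj).2
          rw [Finset.mem_coe, Finset.mem_filter]
          exact ⟨Finset.mem_univ _, j.2, hj2⟩
        · intro a _ b _ hab
          exact Subtype.ext hab
      · have h0 : (univ.filter (fun j : {i : I // d ≤ (A i).card} => e ∈ A j.1)) = ∅ := by
          rw [Finset.filter_eq_empty_iff]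
          intro j _ hj
          exact he (hAX j.1 hj)
        rw [h0]
        simp)
    (fun j => j.2) t
  apply h.mono
  intro M hM i hi
  exact hM ⟨i, hi⟩

/-- the share is at least `c D` for every `c < 1 / (r + 1)` when `d` is large -/
lemma share_ge {c : ℝ} {r : ℕ} (hr : 1 ≤ r) (hc : c < 1 / (r + 1)) :
    ∃ d₀ : ℕ, 1 ≤ d₀ ∧ ∀ d : ℕ, d₀ ≤ d →
      4 * (r : ℝ) ^ 2 * (Real.log (2 * 1 * d) + 2 * (r - 1) / (3 * 1)) ≤ d ∧
      ∀ D : ℕ, d ≤ D → c * D ≤ share r d 1 D := by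
  have hr1 : (1 : ℝ) ≤ r := by exact_mod_cast hr
  obtain ⟨δ, hδ⟩ : ∃ δ : ℝ, δ = 1 / (r + 1) - c := ⟨_, rfl⟩
  have hδ0 : 0 < δ := by rw [hδ]; linarith
  obtain ⟨κ, hκ⟩ : ∃ κ : ℝ, κ = kap r := ⟨_, rfl⟩
  have hκ0 : 0 < κ := by rw [hκ, kap]; positivity
  obtain ⟨ε, hε⟩ : ∃ ε : ℝ, ε = min (1 / (4 * (r : ℝ) ^ 2)) ((δ / (2 * κ)) ^ 2) := ⟨_, rfl⟩
  have hε0 : 0 < ε := by rw [hε]; exact lt_min (by positivity) (by positivity)
  obtain ⟨N1, hN1⟩ := exists_nat_ge (((3 + r) / ε) ^ 2)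
  obtain ⟨N2, hN2⟩ := exists_nat_ge (2 / δ)
  refine ⟨N1 + N2 + 1, by omega, ?_⟩
  intro d hd
  have hd1 : 1 ≤ d := by omega
  have hdr : (1 : ℝ) ≤ d := by exact_mod_cast hd1
  have hd0 : (0 : ℝ) < d := by linarith
  have hdN1 : ((3 + r) / ε) ^ 2 ≤ (d : ℝ) := hN1.trans (by exact_mod_cast (by omega : N1 ≤ d))
  have hdN2 : 2 / δ ≤ (d : ℝ) := hN2.trans (by exact_mod_cast (by omega : N2 ≤ d))
  have hsq : (3 + r) / ε ≤ √(d : ℝ) := Real.le_sqrt_of_sq_le hdN1
  have hsd : √(d : ℝ) * √(d : ℝ) = d := Real.mul_self_sqrt hd0.le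
  have hs1 : 1 ≤ √(d : ℝ) := Real.one_le_sqrt.2 hdr
  have hη : (Real.log (2 * 1 * d) + 2 * (r - 1) / (3 * 1)) / d ≤ ε := by
    have h1 : Real.log (2 * 1 * (d : ℝ)) ≤ 3 * √(d : ℝ) := by
      have e : (2 * 1 * (d : ℝ)) = 2 * (√(d : ℝ) * √(d : ℝ)) := by rw [hsd]; ring
      have hs0 : √(d : ℝ) ≠ 0 := by linarith
      rw [e, Real.log_mul (by norm_num) (mul_ne_zero hs0 hs0), Real.log_mul hs0 hs0]
      have h2 := Real.log_le_sub_one_of_pos (show 0 < √(d : ℝ) by linarith)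
      have h3 := Real.log_two_lt_d9
      linarith
    rw [div_le_iff₀ hd0]
    have h2 : (3 + r) ≤ ε * √(d : ℝ) := by
      rw [div_le_iff₀ hε0] at hsq
      linarith
    have h3 : (3 + r) * √(d : ℝ) ≤ ε * d := by
      calc (3 + r) * √(d : ℝ) ≤ (ε * √(d : ℝ)) * √(d : ℝ) :=
            mul_le_mul_of_nonneg_right h2 (by linarith)
        _ = ε * (√(d : ℝ) * √(d : ℝ)) := by ring
        _ = ε * d := by rw [hsd]
    have h4 : (r : ℝ) * 1 ≤ r * √(d : ℝ) := mul_le_mul_of_nonneg_left hs1 (by linarith)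
    have h5 : 2 * ((r : ℝ) - 1) / (3 * 1) ≤ r := by
      rw [div_le_iff₀ (by norm_num)]
      linarith
    refine (add_le_add h1 h5).trans ?_
    nlinarith
  have hcond : 4 * (r : ℝ) ^ 2 * (Real.log (2 * 1 * d) + 2 * (r - 1) / (3 * 1)) ≤ d := by
    have h1 : (Real.log (2 * 1 * d) + 2 * (r - 1) / (3 * 1)) / d ≤ 1 / (4 * (r : ℝ) ^ 2) :=
      hη.trans (by rw [hε]; exact min_le_left _ _)
    rw [div_le_div_iff₀ hd0 (by positivity)] at h1
    linarith
  refine ⟨hcond, ?_⟩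
  intro D hD
  have hDd : (d : ℝ) ≤ D := by exact_mod_cast hD
  have hD0 : (0 : ℝ) < D := by linarith
  have h1 := ratio_le hd1 le_rfl hr hcond hD
  have h2 : √(D * Real.log (2 * 1 * D) + 2 * (r - 1) * D ^ 2 / (3 * 1 * d)) ≤
      δ / (2 * κ) * D := by
    rw [Real.sqrt_le_left (by positivity)]
    have e : (D : ℝ) * Real.log (2 * 1 * D) + 2 * (r - 1) * D ^ 2 / (3 * 1 * d) =
        ((Real.log (2 * 1 * D) + 2 * (r - 1) * D / (3 * 1 * d)) / D) * (D : ℝ) ^ 2 := by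
      field_simp
    rw [e, mul_pow]
    apply mul_le_mul_of_nonneg_right _ (by positivity)
    exact h1.trans (hη.trans (by rw [hε]; exact min_le_right _ _))
  have h3 : κ * √(D * Real.log (2 * 1 * D) + 2 * (r - 1) * D ^ 2 / (3 * 1 * d)) ≤
      δ / 2 * D := by
    calc _ ≤ κ * (δ / (2 * κ) * D) := mul_le_mul_of_nonneg_left h2 hκ0.le
      _ = δ / 2 * D := by field_simp
  have h4 : 1 ≤ δ / 2 * D := by
    rw [div_le_iff₀ hδ0] at hdN2
    nlinarith
  unfold share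
  rw [← hκ]
  have e : (D : ℝ) / (r + 1) = 1 / (r + 1) * D := by ring
  rw [e]
  have e2 : c = 1 / (r + 1) - δ := by rw [hδ]; ring
  rw [e2, sub_mul]
  linarith

end Pool.Agent.H92.DG
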