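import Pool.Graph.R_seed8.Results.MP_0dac36_co.DegreeGame

/-!
The region where the independence polynomial of a graph (with negative weights) is positive on every
induced subgraph: expansion along a clique of any size, an averaging step for a clique, and the
asymmetric local-lemma condition.
-/

set_option autoImplicit false

namespace Pool.Agent.H92.DG

open Finset
open Pool.Agent.Results.MP_0dac36_co.DegreeGame (Q R nb mem_nb Q_empty Q_insert Q_erase Q_congr
  Q_ratio R_mono)

section

variable {V : Type*} [Fintype V] [DecidableEq V] (G : SimpleGraph V)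

/-- expansion of `Q` along a clique -/
lemma Q_clique (f g : V → ℝ) {T : Finset V} (hT : ∀ a ∈ T, ∀ b ∈ T, a ≠ b → G.Adj a b)
    (hfg : ∀ v, v ∉ T → g v = f v) (U : Finset V) (hU : Disjoint U T) :
    ∀ S : Finset V, S ⊆ T → Q G g (S ∪ U) = Q G f U - ∑ a ∈ S, g a * Q G f (U \ nb G a) := by
  have hcU : ∀ W, W ⊆ U → Q G g W = Q G f W := by
    intro W hW
    apply Q_congr
    intro v hv
    exact hfg v (fun h => Finset.disjoint_left.1 hU (hW hv) h)
  intro S
  induction S using Finset.induction_on with
  | empty => intro _; simp [hcU U (Finset.Subset.refl _)]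
  | insert a S ha ih =>
    intro hS
    have haT : a ∈ T := hS (Finset.mem_insert_self _ _)
    have hST : S ⊆ T := fun x hx => hS (Finset.mem_insert_of_mem hx)
    have haU : a ∉ S ∪ U := by
      rw [Finset.mem_union, not_or]
      exact ⟨ha, fun h => Finset.disjoint_left.1 hU h haT⟩
    rw [Finset.insert_union, Q_insert G g haU, ih hST, Finset.sum_insert ha]
    have e : (S ∪ U) \ nb G a = U \ nb G a := by
      ext x
      simp only [Finset.mem_sdiff, Finset.mem_union, mem_nb]
      constructor
      · rintro ⟨h1 | h1, h2⟩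
        · exact absurd (hT a haT x (hST h1) (fun h => ha (h ▸ h1))) h2
        · exact ⟨h1, h2⟩
      · rintro ⟨h1, h2⟩
        exact ⟨Or.inr h1, h2⟩
    rw [e, hcU _ Finset.sdiff_subset]
    ring

lemma Q_univ_clique (f g : V → ℝ) {T : Finset V} (hT : ∀ a ∈ T, ∀ b ∈ T, a ≠ b → G.Adj a b)
    (hfg : ∀ v, v ∉ T → g v = f v) :
    Q G g univ = Q G f (univ \ T) - ∑ a ∈ T, g a * Q G f ((univ \ T) \ nb G a) := by
  have := Q_clique G f g hT hfg (univ \ T) Finset.sdiff_disjoint T (Finset.Subset.refl _)
  rw [← this]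
  congr 1
  rw [Finset.union_sdiff_of_subset (Finset.subset_univ _)]

/-- positivity on the whole vertex set is enough when the weights are changed on a clique only -/
lemma R_of_univ {f g : V → ℝ} (hf : ∀ v, 0 ≤ f v) (hg : ∀ v, 0 ≤ g v) (hR : R G f)
    {T : Finset V} (hT : ∀ a ∈ T, ∀ b ∈ T, a ≠ b → G.Adj a b) (hfg : ∀ v, v ∉ T → g v = f v)
    (h : 0 < Q G g univ) : R G g := by
  intro W
  have e1 := Q_univ_clique G f g hT hfg
  have e2 : Q G g W = Q G f (W \ T) - ∑ a ∈ W ∩ T, g a * Q G f ((W \ T) \ nb G a) := by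
    have := Q_clique G f g hT hfg (W \ T) Finset.sdiff_disjoint (W ∩ T) Finset.inter_subset_right
    rw [← this]
    congr 1
    rw [Finset.union_comm, Finset.sdiff_union_inter]
  have hUY : W \ T ⊆ univ \ T := Finset.sdiff_subset_sdiff (Finset.subset_univ _) (Finset.Subset.refl _)
  have hQY : 0 < Q G f (univ \ T) := hR _
  have hQU : 0 < Q G f (W \ T) := hR _
  have h3 : ∑ a ∈ W ∩ T, g a * Q G f ((W \ T) \ nb G a) * Q G f (univ \ T) ≤
      ∑ a ∈ T, g a * Q G f ((univ \ T) \ nb G a) * Q G f (W \ T) := by
    calc ∑ a ∈ W ∩ T, g a * Q G f ((W \ T) \ nb G a) * Q G f (univ \ T)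
        ≤ ∑ a ∈ W ∩ T, g a * Q G f ((univ \ T) \ nb G a) * Q G f (W \ T) := by
          apply Finset.sum_le_sum
          intro a _
          have := Q_ratio G hf hR hUY (nb G a)
          rw [mul_assoc, mul_assoc]
          exact mul_le_mul_of_nonneg_left this (hg a)
      _ ≤ _ := by
          apply Finset.sum_le_sum_of_subset_of_nonneg Finset.inter_subset_right
          intro a _ _
          exact mul_nonneg (mul_nonneg (hg a) (hR _).le) hQU.le
  have h4 : 0 < Q G g W * Q G f (univ \ T) := by
    rw [e2, sub_mul, Finset.sum_mul]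
    have h5 : 0 < Q G g univ * Q G f (W \ T) := mul_pos h hQU
    rw [e1, sub_mul, Finset.sum_mul] at h5
    linarith [mul_comm (Q G f (W \ T)) (Q G f (univ \ T))]
  exact (pos_iff_pos_of_mul_pos h4).2 hQY

/-- the averaging step: one of the modifications `g j`, `j ∈ T`, stays in the region -/
lemma R_avg {f : V → ℝ} (hf : ∀ v, 0 ≤ f v) (hR : R G f) {T : Finset V} (hne : T.Nonempty)
    (hT : ∀ a ∈ T, ∀ b ∈ T, a ≠ b → G.Adj a b) (g : V → V → ℝ) (hg : ∀ j v, 0 ≤ g j v)
    (hfg : ∀ j, ∀ v, v ∉ T → g j v = f v)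
    (havg : ∀ v ∈ T, ∑ j ∈ T, g j v ≤ T.card * f v) : ∃ j ∈ T, R G (g j) := by
  by_contra hcon
  push Not at hcon
  have h1 : ∀ j ∈ T, Q G (g j) univ ≤ 0 := by
    intro j hj
    by_contra h
    exact hcon j hj (R_of_univ G hf (hg j) hR hT (hfg j) (not_le.1 h))
  have h2 : ∑ j ∈ T, Q G (g j) univ ≤ 0 := Finset.sum_nonpos h1
  have h3 : ∑ j ∈ T, Q G (g j) univ =
      T.card * Q G f (univ \ T) - ∑ a ∈ T, (∑ j ∈ T, g j a) * Q G f ((univ \ T) \ nb G a) := by
    rw [Finset.sum_congr rfl (fun j _ => Q_univ_clique G f (g j) hT (hfg j)),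
      Finset.sum_sub_distrib, Finset.sum_const, nsmul_eq_mul, Finset.sum_comm]
    congr 1
    apply Finset.sum_congr rfl
    intro a _
    rw [Finset.sum_mul]
  have h4 : ∑ a ∈ T, (∑ j ∈ T, g j a) * Q G f ((univ \ T) \ nb G a) ≤
      ∑ a ∈ T, (T.card * f a) * Q G f ((univ \ T) \ nb G a) := by
    apply Finset.sum_le_sum
    intro a ha
    exact mul_le_mul_of_nonneg_right (havg a ha) (hR _).le
  have h5 : (T.card : ℝ) * Q G f univ =
      T.card * Q G f (univ \ T) - ∑ a ∈ T, (T.card * f a) * Q G f ((univ \ T) \ nb G a) := by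
    rw [Q_univ_clique G f f hT (fun _ _ => rfl), mul_sub, Finset.mul_sum]
    congr 1
    apply Finset.sum_congr rfl
    intro a _
    ring
  have h6 : 0 < (T.card : ℝ) * Q G f univ :=
    mul_pos (by exact_mod_cast Finset.card_pos.2 hne) (hR _)
  linarith

/-- the asymmetric local-lemma condition -/
lemma R_lll {f z : V → ℝ} (hz0 : ∀ v, 0 ≤ z v) (hz1 : ∀ v, z v < 1)
    (hf : ∀ v, f v ≤ z v * ∏ u ∈ nb G v, (1 - z u)) : R G f := by
  have hp : ∀ v, 0 < 1 - z v := fun v => sub_pos.2 (hz1 v)
  have main : ∀ m : ℕ, ∀ W : Finset V, W.card ≤ m →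
      0 < Q G f W ∧ ∀ v ∈ W, (1 - z v) * Q G f (W.erase v) ≤ Q G f W := by
    intro m
    induction m with
    | zero =>
      intro W hW
      have : W = ∅ := Finset.card_eq_zero.1 (Nat.le_zero.1 hW)
      subst this
      rw [Q_empty]
      simp
    | succ m ih =>
      intro W hW
      have hstep : ∀ v ∈ W, 0 < Q G f (W.erase v) ∧ (1 - z v) * Q G f (W.erase v) ≤ Q G f W := by
        intro v hv
        have hc : (W.erase v).card ≤ m := by
          rw [Finset.card_erase_of_mem hv]
          omega
        have hpos := (ih (W.erase v) hc).1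
        refine ⟨hpos, ?_⟩
        have hsub : ∀ X : Finset V, X ⊆ W.erase v →
            (∏ x ∈ X, (1 - z x)) * Q G f (W.erase v \ X) ≤ Q G f (W.erase v) := by
          intro X
          induction X using Finset.induction_on with
          | empty => intro _; simp
          | insert x X hx ihX =>
            intro hX
            have hX' : X ⊆ W.erase v := fun a ha => hX (Finset.mem_insert_of_mem ha)
            have hxW : x ∈ W.erase v \ X := Finset.mem_sdiff.2 ⟨hX (Finset.mem_insert_self _ _), hx⟩
            have h1 := ihX hX'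
            have h2 := (ih (W.erase v \ X)
              ((Finset.card_le_card Finset.sdiff_subset).trans hc)).2 x hxW
            have e : W.erase v \ insert x X = (W.erase v \ X).erase x := by
              ext a
              simp only [Finset.mem_sdiff, Finset.mem_erase, Finset.mem_insert, not_or]
              tauto
            rw [e, Finset.prod_insert hx]
            have h3 : 0 ≤ ∏ x ∈ X, (1 - z x) := Finset.prod_nonneg (fun a _ => (hp a).le)
            have h4 := mul_le_mul_of_nonneg_left h2 h3
            calc (1 - z x) * (∏ x ∈ X, (1 - z x)) * Q G f ((W.erase v \ X).erase x)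
                = (∏ x ∈ X, (1 - z x)) * ((1 - z x) * Q G f ((W.erase v \ X).erase x)) := by ring
              _ ≤ _ := h4
              _ ≤ _ := h1
        rw [Q_erase G f hv]
        have h1 := hsub (W.erase v ∩ nb G v) Finset.inter_subset_left
        have e : W.erase v \ (W.erase v ∩ nb G v) = W.erase v \ nb G v := by
          ext a
          simp only [Finset.mem_sdiff, Finset.mem_inter]
          tauto
        rw [e] at h1
        have h2 : ∏ u ∈ nb G v, (1 - z u) ≤ ∏ u ∈ W.erase v ∩ nb G v, (1 - z u) := by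
          rw [← Finset.prod_sdiff (Finset.inter_subset_right : W.erase v ∩ nb G v ⊆ nb G v)]
          have h9 : 0 ≤ ∏ u ∈ W.erase v ∩ nb G v, (1 - z u) :=
            Finset.prod_nonneg (fun a _ => (hp a).le)
          have h10 : ∏ u ∈ nb G v \ (W.erase v ∩ nb G v), (1 - z u) ≤ 1 :=
            Finset.prod_le_one (fun a _ => (hp a).le) (fun a _ => by linarith [hz0 a])
          nlinarith
        have h5 : 0 < Q G f (W.erase v \ nb G v) :=
          (ih _ ((Finset.card_le_card Finset.sdiff_subset).trans hc)).1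
        have h6 : f v * Q G f (W.erase v \ nb G v) ≤
            (z v * ∏ u ∈ nb G v, (1 - z u)) * Q G f (W.erase v \ nb G v) :=
          mul_le_mul_of_nonneg_right (hf v) h5.le
        have h7 : (z v * ∏ u ∈ nb G v, (1 - z u)) * Q G f (W.erase v \ nb G v) ≤
            z v * ((∏ u ∈ W.erase v ∩ nb G v, (1 - z u)) * Q G f (W.erase v \ nb G v)) := by
          rw [mul_assoc]
          exact mul_le_mul_of_nonneg_left (mul_le_mul_of_nonneg_right h2 h5.le) (hz0 v)
        have h8 := mul_le_mul_of_nonneg_left h1 (hz0 v)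
        linarith
      refine ⟨?_, fun v hv => (hstep v hv).2⟩
      rcases W.eq_empty_or_nonempty with h | ⟨v, hv⟩
      · rw [h, Q_empty]
        exact zero_lt_one
      · have h := hstep v hv
        exact (mul_pos (hp v) h.1).trans_le h.2
  exact fun W => (main W.card W le_rfl).1

end

end Pool.Agent.H92.DG
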